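import Pool.Agent.Lib.H48L.A2
import Pool.Agent.Lib.H48K.C

/-!
# H48L9: second copy of the chunk A3 of H48L
-/

open MeasureTheory Set Filter H69K H48K H48L

namespace H48L9

/-- What `st` says. -/
theorem st_iff {t m : ℕ} : st t m = true ↔
    ∃ x, x ∈ Nat.Partrec.Code.evaln t (Denumerable.ofNat Nat.Partrec.Code m.unpair.1) m.unpair.2 ∧ x ≤ t := by
  unfold st
  cases h : Nat.Partrec.Code.evaln t (Denumerable.ofNat Nat.Partrec.Code m.unpair.1) m.unpair.2 with
  | none => simp
  | some y => simp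

/-- For a total computable `F` there is a code number `a` such that for `k ≥ a` with `(k + 1) ^ 2 ≤ F k` some `τ ≥ F k` has
`cost τ ≤ pair a k`. -/
theorem stop (F : ℕ → ℕ) (hF : Computable F) :
    ∃ a : ℕ, ∀ k, a ≤ k → (k + 1) ^ 2 ≤ F k → ∃ τ, F k ≤ τ ∧ cost τ ≤ Nat.pair a k := by
  obtain ⟨c0, hc0⟩ := Nat.Partrec.Code.exists_code.1 (Partrec.nat_iff.1 hF)
  refine ⟨Encodable.encode c0, fun k hk hFk => ?_⟩
  have hun : ∀ t, Nat.Partrec.Code.evaln t (Denumerable.ofNat Nat.Partrec.Code
      (Nat.pair (Encodable.encode c0) k).unpair.1) (Nat.pair (Encodable.encode c0) k).unpair.2 =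
      Nat.Partrec.Code.evaln t c0 k := by
    intro t
    rw [Nat.unpair_pair, Denumerable.ofNat_encode]
  have hval : ∀ t x, x ∈ Nat.Partrec.Code.evaln t c0 k → x = F k := by
    intro t x hx
    have := Nat.Partrec.Code.evaln_sound hx
    rw [hc0] at this
    simpa using this
  have hex : ∃ t, st t (Nat.pair (Encodable.encode c0) k) = true := by
    have h1 : F k ∈ c0.eval k := by
      rw [hc0]
      simp
    obtain ⟨t, ht⟩ := Nat.Partrec.Code.evaln_complete.1 h1
    refine ⟨max t (F k), st_iff.2 ⟨F k, ?_, le_max_right _ _⟩⟩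
    rw [hun]
    exact Nat.Partrec.Code.evaln_mono (le_max_left _ _) ht
  classical
  have h1 := Nat.find_spec hex
  have h2 := fun t => Nat.find_min (H := hex) (m := t)
  set τ := Nat.find hex with hτ
  obtain ⟨x, hx, hxτ⟩ := st_iff.1 h1
  rw [hun] at hx
  have hxF := hval _ _ hx
  subst hxF
  refine ⟨τ, hxτ, ?_⟩
  have hpos : 0 < τ := by
    rcases Nat.eq_zero_or_pos τ with h0 | h0
    · rw [h0] at hx
      simp [Nat.Partrec.Code.evaln] at hx
    · exact h0
  have hm : Nat.pair (Encodable.encode c0) k < τ := by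
    have h3 := Nat.pair_lt_max_add_one_sq (Encodable.encode c0) k
    rw [max_eq_right hk] at h3
    omega
  refine cost_le hm h1 ?_
  have := h2 (τ - 1) (by omega)
  simpa using this

/-- A3, second copy. -/
theorem dominate (G : ℕ → ℕ) (hG : Computable G) (hc : Tendsto cost atTop atTop) :
    ∀ᶠ n in atTop, Act cost n → G (cost n) ≤ n := by
  have hcF : Computable fun k : ℕ => (∑ j ∈ Finset.range ((2 * k + 2) ^ 2 + 1), G j) + (2 * k + 2) ^ 2 := by
    have hsq : Computable fun k : ℕ => (2 * k + 2) ^ 2 := by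
      have h1 : Primrec fun k : ℕ => (2 * k + 2) * (2 * k + 2) :=
        Primrec.nat_mul.comp (Primrec.nat_add.comp (Primrec.nat_mul.comp (Primrec.const 2) Primrec.id) (Primrec.const 2))
          (Primrec.nat_add.comp (Primrec.nat_mul.comp (Primrec.const 2) Primrec.id) (Primrec.const 2))
      exact (h1.to_comp).of_eq fun k => by ring
    have hs1 : Computable fun k : ℕ => (2 * k + 2) ^ 2 + 1 := Computable.succ.comp hsq
    have h2 : Computable fun k : ℕ => ∑ j ∈ Finset.range ((2 * k + 2) ^ 2 + 1), G j :=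
      computable_sum (F := fun _ j => G j) (n := fun k => (2 * k + 2) ^ 2 + 1) (hG.comp Computable.snd).to₂ hs1
    exact (Primrec.nat_add.to_comp).comp h2 hsq
  obtain ⟨a, ha⟩ := stop _ hcF
  filter_upwards [hc.eventually_ge_atTop (Nat.pair a a)] with n hn hact
  set K := cost n with hK
  -- the greatest `k` with `pair a k ≤ K`
  set k := Nat.findGreatest (fun k => Nat.pair a k ≤ K) K with hk
  have hle : ∀ j, j ≤ Nat.pair a j := fun j => Nat.right_le_pair a j
  have haK : a ≤ K := (hle a).trans hn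
  have hk1 : Nat.pair a k ≤ K := Nat.findGreatest_spec (P := fun k => Nat.pair a k ≤ K) haK hn
  have hk2 : a ≤ k := Nat.le_findGreatest haK hn
  have hk3 : K < Nat.pair a (k + 1) := by
    by_contra hcon
    push Not at hcon
    have h3 : k + 1 ≤ K := (hle (k + 1)).trans hcon
    have := Nat.le_findGreatest (P := fun k => Nat.pair a k ≤ K) h3 hcon
    omega
  have hk4 : K < (2 * k + 2) ^ 2 := by
    have h4 := Nat.pair_lt_max_add_one_sq a (k + 1)
    rw [max_eq_right (by omega : a ≤ k + 1)] at h4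
    calc K < (k + 1 + 1) ^ 2 := lt_of_lt_of_le hk3 h4.le
      _ ≤ (2 * k + 2) ^ 2 := Nat.pow_le_pow_left (by omega) 2
  obtain ⟨τ, h5, h6⟩ := ha k hk2 (by
    have : (k + 1) ^ 2 ≤ (2 * k + 2) ^ 2 := Nat.pow_le_pow_left (by omega) 2
    omega)
  have h7 : τ ≤ n := by
    by_contra hcon
    push Not at hcon
    have := hact τ hcon
    omega
  have h8 : G K ≤ ∑ j ∈ Finset.range ((2 * k + 2) ^ 2 + 1), G j :=
    Finset.single_le_sum (f := G) (fun _ _ => Nat.zero_le _) (Finset.mem_range.2 (by omega))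
  omega

end H48L9
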